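import Mathlib

set_option autoImplicit false

/-!
# Quadratics on `{0, 1} ^ n` which miss a value and have degree-1 rank `p - 1`

Let `p` be a prime, `p ≡ 3 mod 4`, and `m = p - 2`. The sum `P` of `m` multiplexers
`x_i y_i + (1 - x_i) z_i` in disjoint sets of variables takes on `{0, 1} ^ (3 m)` the values
`0, …, p - 2` only, and its degree-1 rank relative to `{0, 1}` and up to constants is `p - 1`.

Proof of the lower bound. If `P - c` is on `{0, 1} ^ (3 m)` a sum of `k ≤ m` products of two affine
functions, let `u_v ∈ F ^ k × F ^ k` be the vector of the coefficients of the variable `v`, and let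
`B` be the hyperbolic bilinear form. The products `B (u_v, u_w)` are the coefficients of `P`. Then
`k = m`, in every block `q (u_y) = q (u_z) = t ≠ 0`, and the `u_y`, `u_z` are an orthogonal basis,
so that `(-1) ^ m` is a square in `F_p`, a contradiction.
-/

namespace Pool.Agent.Results.MP_d05de0_co.Multiplexers

open MvPolynomial

/-- `P` has degree-`d` rank at most `1`: it is a product of polynomials each of degree at most
`d`. -/
def DegRankLeOne {σ F : Type*} [Field F] (d : ℕ) (P : MvPolynomial σ F) : Prop :=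
  ∃ L : List (MvPolynomial σ F), (∀ Q ∈ L, Q.totalDegree ≤ d) ∧ P = L.prod

/-- The degree-`d` rank of `P`: the least `k` such that `P = P_1 + … + P_k`, where each `P_i` has
degree-`d` rank at most `1` and `deg P_i ≤ deg P`. -/
noncomputable def rk {σ F : Type*} [Field F] (d : ℕ) (P : MvPolynomial σ F) : ℕ∞ :=
  ⨅ (k : ℕ) (_ : ∃ Q : Fin k → MvPolynomial σ F,
    (∀ i, DegRankLeOne d (Q i) ∧ (Q i).totalDegree ≤ P.totalDegree) ∧ P = ∑ i, Q i), (k : ℕ∞)

/-- The degree-`d` rank of `P` relative to `S`: the minimum of the degree-`d` ranks of `P - P₀`,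
where `deg P₀ ≤ deg P` and `P₀` vanishes on `S ^ n`. -/
noncomputable def rkRel {σ F : Type*} [Field F] (d : ℕ) (S : Set F) (P : MvPolynomial σ F) : ℕ∞ :=
  ⨅ (P₀ : MvPolynomial σ F) (_ : P₀.totalDegree ≤ P.totalDegree ∧
    ∀ x : σ → F, (∀ i, x i ∈ S) → eval x P₀ = 0), rk d (P - P₀)

/-- The degree-`d` rank of `P` relative to `S` up to constants. -/
noncomputable def rkRelBar {σ F : Type*} [Field F] (d : ℕ) (S : Set F) (P : MvPolynomial σ F) :
    ℕ∞ :=
  ⨅ c : F, rkRel d S (P - C c)

section general

variable {σ F : Type*} [Field F]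

/-- Polynomials of degree at most `1` are affine functions. -/
lemma eval_add_of_le_one {A : MvPolynomial σ F} (hA : A.totalDegree ≤ 1) (x y : σ → F) :
    eval (x + y) A + eval 0 A = eval x A + eval y A := by
  classical
  rw [eval_eq, eval_eq, eval_eq, eval_eq, ← Finset.sum_add_distrib, ← Finset.sum_add_distrib]
  refine Finset.sum_congr rfl fun s hs => ?_
  have hdeg : (s.sum fun _ e => e) ≤ 1 := (le_totalDegree hs).trans hA
  by_cases h0 : s = 0
  · subst h0; simp
  · obtain ⟨v, hv⟩ := Finsupp.ne_iff.1 h0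
    have hv' : v ∈ s.support := by simpa using hv
    have h1 : s = Finsupp.single v 1 := by
      have h2 : s v ≤ s.sum fun _ e => e :=
        Finset.single_le_sum (f := fun w => s w) (fun _ _ => Nat.zero_le _) hv'
      have h3 : s v = 1 := by
        have : s v ≠ 0 := by simpa using hv
        omega
      have h4 : s.sum (fun _ e => e) = 1 := by omega
      ext w
      by_cases hw : w = v
      · subst hw; simpa using h3
      · rw [Finsupp.single_eq_of_ne hw]
        by_contra hne
        have hw' : w ∈ s.support := by simpa using hne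
        have h5 : s v + s w ≤ s.sum fun _ e => e := by
          have : ∑ z ∈ ({v, w} : Finset σ), s z ≤ ∑ z ∈ s.support, s z := by
            refine Finset.sum_le_sum_of_subset ?_
            intro z hz
            rcases Finset.mem_insert.1 hz with h | h
            · exact h ▸ hv'
            · exact (Finset.mem_singleton.1 h) ▸ hw'
          rwa [Finset.sum_pair (fun h => hw h.symm)] at this
        omega
    subst h1
    simp
    ring

/-- A product of polynomials of degree at most `1` which has degree at most `2` is a product of two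
polynomials of degree at most `1`. -/
lemma exists_two_factors (L : List (MvPolynomial σ F)) (hL : ∀ Q ∈ L, Q.totalDegree ≤ 1)
    (hd : L.prod.totalDegree ≤ 2) :
    ∃ A B : MvPolynomial σ F, A.totalDegree ≤ 1 ∧ B.totalDegree ≤ 1 ∧ L.prod = A * B := by
  induction L with
  | nil => exact ⟨1, 1, by simp, by simp, by simp⟩
  | cons q L ih =>
    rw [List.prod_cons] at hd ⊢
    by_cases hq : q = 0
    · exact ⟨0, 0, by simp, by simp, by simp [hq]⟩
    by_cases hp : L.prod = 0
    · exact ⟨0, 0, by simp, by simp, by simp [hp]⟩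
    rw [totalDegree_mul_of_isDomain hq hp] at hd
    have hq1 : q.totalDegree ≤ 1 := hL q (by simp)
    by_cases h1 : L.prod.totalDegree ≤ 1
    · exact ⟨q, L.prod, hq1, h1, rfl⟩
    · obtain ⟨A, B, hA, hB, hAB⟩ := ih (fun Q hQ => hL Q (by simp [hQ])) (by omega)
      refine ⟨q * A, B, ?_, hB, by rw [hAB]; ring⟩
      have := totalDegree_mul q A
      omega

/-- A sum of products of two affine functions that represents `P` up to a constant on `S ^ n`. -/
lemma exists_products {S : Set F} {P : MvPolynomial σ F} (hP : P.totalDegree ≤ 2) {N : ℕ}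
    (hN : rkRelBar 1 S P < N) : ∃ k < N, ∃ (c : F) (A B : Fin k → MvPolynomial σ F),
      (∀ i, (A i).totalDegree ≤ 1 ∧ (B i).totalDegree ≤ 1) ∧
      ∀ x : σ → F, (∀ i, x i ∈ S) → eval x P = c + ∑ i, eval x (A i) * eval x (B i) := by
  unfold rkRelBar rkRel rk at hN
  simp only [iInf_lt_iff] at hN
  obtain ⟨c, P₀, ⟨h1, h2⟩, k, ⟨Q, hQ, hsum⟩, hk⟩ := hN
  have hd1 : (P - C c).totalDegree ≤ 2 := by
    refine (totalDegree_sub _ _).trans ?_
    simp [hP]
  have hd2 : (P - C c - P₀).totalDegree ≤ 2 := by
    refine (totalDegree_sub _ _).trans ?_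
    simp only [sup_le_iff]
    exact ⟨hd1, h1.trans hd1⟩
  have hfac : ∀ i, ∃ A B : MvPolynomial σ F, A.totalDegree ≤ 1 ∧ B.totalDegree ≤ 1 ∧
      Q i = A * B := by
    intro i
    obtain ⟨⟨L, hL, hLp⟩, hdeg⟩ := hQ i
    rw [hLp] at hdeg ⊢
    exact exists_two_factors L hL (hdeg.trans hd2)
  choose A B hA hB hAB using hfac
  refine ⟨k, by exact_mod_cast hk, c, A, B, fun i => ⟨hA i, hB i⟩, fun x hx => ?_⟩
  have := congrArg (eval x) hsum
  rw [map_sub, map_sub, eval_C, h2 x hx, sub_zero, map_sum] at this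
  have h3 : ∀ i, eval x (Q i) = eval x (A i) * eval x (B i) := fun i => by
    rw [hAB i, map_mul]
  rw [Finset.sum_congr rfl fun i _ => h3 i] at this
  rw [← this]
  ring

end general

/-! ### Linear algebra -/

section linalg

variable {F : Type*} [Field F] {k : ℕ}

/-- The hyperbolic bilinear form on `F ^ k × F ^ k`. -/
def hyp (u v : (Fin k → F) × (Fin k → F)) : F := ∑ i, (u.1 i * v.2 i + v.1 i * u.2 i)

/-- The hyperbolic quadratic form on `F ^ k × F ^ k`. -/
def quad (u : (Fin k → F) × (Fin k → F)) : F := ∑ i, u.1 i * u.2 i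

lemma hyp_comm (u v : (Fin k → F) × (Fin k → F)) : hyp u v = hyp v u := by
  unfold hyp
  exact Finset.sum_congr rfl fun i _ => by ring

lemma hyp_self (u : (Fin k → F) × (Fin k → F)) : hyp u u = 2 * quad u := by
  unfold hyp quad
  rw [Finset.mul_sum]
  exact Finset.sum_congr rfl fun i _ => by ring

/-- The bilinear form as a linear map in the first variable. -/
def hypL (v : (Fin k → F) × (Fin k → F)) : ((Fin k → F) × (Fin k → F)) →ₗ[F] F where
  toFun u := hyp u v
  map_add' a b := by
    simp only [hyp, Prod.fst_add, Prod.snd_add, Pi.add_apply, ← Finset.sum_add_distrib]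
    exact Finset.sum_congr rfl fun i _ => by ring
  map_smul' c a := by
    simp only [hyp, Prod.smul_fst, Prod.smul_snd, Pi.smul_apply, smul_eq_mul, RingHom.id_apply,
      Finset.mul_sum]
    exact Finset.sum_congr rfl fun i _ => by ring

lemma hypL_apply (u v : (Fin k → F) × (Fin k → F)) : hypL v u = hyp u v := rfl

/-- If the Gram matrices of the pairs `(P_i, Q_i)` are nonsingular and different pairs are
orthogonal, then the vectors are linearly independent. -/
lemma linearIndependent_pairs {m : ℕ} (P Q : Fin m → (Fin k → F) × (Fin k → F))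
    (hdet : ∀ i, hyp (P i) (P i) * hyp (Q i) (Q i) - hyp (P i) (Q i) * hyp (P i) (Q i) ≠ 0)
    (h1 : ∀ i j, i ≠ j → hyp (P i) (P j) = 0) (h2 : ∀ i j, i ≠ j → hyp (P i) (Q j) = 0)
    (h3 : ∀ i j, i ≠ j → hyp (Q i) (Q j) = 0) :
    LinearIndependent F (Sum.elim P Q : Fin m ⊕ Fin m → (Fin k → F) × (Fin k → F)) := by
  rw [Fintype.linearIndependent_iff]
  intro g hg
  rw [Fintype.sum_sum_type] at hg
  simp only [Sum.elim_inl, Sum.elim_inr] at hg
  have key : ∀ j, g (Sum.inl j) = 0 ∧ g (Sum.inr j) = 0 := by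
    intro j
    have e1 := congrArg (hypL (P j)) hg
    have e2 := congrArg (hypL (Q j)) hg
    simp only [map_add, map_sum, map_smul, hypL_apply, smul_eq_mul, map_zero] at e1 e2
    rw [Finset.sum_eq_single j (fun i _ hij => by rw [h1 i j hij, mul_zero]) (by simp),
      Finset.sum_eq_single j (fun i _ hij => by
        rw [hyp_comm, h2 j i (fun h => hij h.symm), mul_zero]) (by simp)] at e1
    rw [Finset.sum_eq_single j (fun i _ hij => by rw [h2 i j hij, mul_zero]) (by simp),
      Finset.sum_eq_single j (fun i _ hij => by rw [h3 i j hij, mul_zero]) (by simp)] at e2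
    rw [hyp_comm (Q j) (P j)] at e1
    have hd := hdet j
    constructor
    · have : g (Sum.inl j) * (hyp (P j) (P j) * hyp (Q j) (Q j) -
          hyp (P j) (Q j) * hyp (P j) (Q j)) = 0 := by
        linear_combination (hyp (Q j) (Q j)) * e1 - (hyp (P j) (Q j)) * e2
      exact (mul_eq_zero.1 this).resolve_right hd
    · have : g (Sum.inr j) * (hyp (P j) (P j) * hyp (Q j) (Q j) -
          hyp (P j) (Q j) * hyp (P j) (Q j)) = 0 := by
        linear_combination (hyp (P j) (P j)) * e2 - (hyp (P j) (Q j)) * e1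
      exact (mul_eq_zero.1 this).resolve_right hd
  rintro (j | j)
  · exact (key j).1
  · exact (key j).2

lemma hyp_eq_zero {T : (Fin k → F) × (Fin k → F)} (h : ∀ v, hyp v T = 0) : T = 0 := by
  classical
  apply Prod.ext
  · funext i
    have := h (0, Pi.single i 1)
    simp only [hyp, Pi.zero_apply, zero_mul, zero_add] at this
    rw [Finset.sum_eq_single i (fun j _ hj => by simp [Pi.single_eq_of_ne hj]) (by simp)] at this
    simpa using this
  · funext i
    have := h (Pi.single i 1, 0)
    simp only [hyp, Pi.zero_apply, mul_zero, add_zero] at this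
    rw [Finset.sum_eq_single i (fun j _ hj => by simp [Pi.single_eq_of_ne hj]) (by simp)] at this
    simpa using this

/-- The relation of a block: a nontrivial linear relation between the vectors of a block forces
`q (Y) = q (Z) ≠ 0`. -/
lemma quad_of_relation (h2 : (2 : F) ≠ 0) {X Y Z U : (Fin k → F) × (Fin k → F)}
    (hXY : hyp X Y = 1) (hXZ : hyp X Z = -1) (hYZ : hyp Y Z = 0)
    (hX : quad X + hyp X U = 0) (hY : quad Y + hyp Y U = 0) (hZ : quad Z + hyp Z U = 1)
    {a b c : F} (hne : ¬ (a = 0 ∧ b = 0 ∧ c = 0)) (h0 : a • X + b • Y + c • Z = 0) :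
    quad Y = quad Z ∧ quad Y ≠ 0 := by
  have e1 := congrArg (hypL X) h0
  have e2 := congrArg (hypL Y) h0
  have e3 := congrArg (hypL Z) h0
  have e4 := congrArg (hypL U) h0
  simp only [map_add, map_smul, hypL_apply, smul_eq_mul, map_zero] at e1 e2 e3 e4
  rw [hyp_self, hyp_comm Y X, hyp_comm Z X, hXY, hXZ] at e1
  rw [hyp_self, hyp_comm Z Y, hXY, hYZ] at e2
  rw [hyp_self, hXZ, hYZ] at e3
  have hXU : hyp X U = - quad X := by linear_combination hX
  have hYU : hyp Y U = - quad Y := by linear_combination hY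
  have hZU : hyp Z U = 1 - quad Z := by linear_combination hZ
  rw [hXU, hYU, hZU] at e4
  have f1 : quad X * a = c := by
    have : 2 * (quad X * a - c) = 0 := by linear_combination -2 * e4 - e2 - e3
    exact sub_eq_zero.1 ((mul_eq_zero.1 this).resolve_left h2)
  have f2 : b = -c := by linear_combination e1 - 2 * f1
  subst f2
  have f3 : a = 2 * quad Y * c := by linear_combination e2
  have f4 : a = 2 * quad Z * c := by linear_combination -e3
  have hc : c ≠ 0 := by
    intro hc
    apply hne
    subst hc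
    simp [f3]
  have f5 : quad Y = quad Z := by
    have : 2 * c * (quad Y - quad Z) = 0 := by linear_combination f4 - f3
    exact sub_eq_zero.1 ((mul_eq_zero.1 this).resolve_left (mul_ne_zero h2 hc))
  refine ⟨f5, fun hq => ?_⟩
  rw [hq, mul_zero, zero_mul] at f3
  rw [f3, mul_zero] at f1
  exact hc f1.symm

/-- The main lemma: the dimension count. -/
lemma blocks {m : ℕ} (h2 : (2 : F) ≠ 0) (hkm : k ≤ m) (X Y Z : Fin m → (Fin k → F) × (Fin k → F))
    (U : (Fin k → F) × (Fin k → F))
    (hXY : ∀ i, hyp (X i) (Y i) = 1) (hXZ : ∀ i, hyp (X i) (Z i) = -1)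
    (hYZ : ∀ i, hyp (Y i) (Z i) = 0)
    (hcross : ∀ i j, i ≠ j → ∀ A ∈ ({X i, Y i, Z i} : Set _), ∀ B ∈ ({X j, Y j, Z j} : Set _),
      hyp A B = 0)
    (hX : ∀ i, quad (X i) + hyp (X i) U = 0) (hY : ∀ i, quad (Y i) + hyp (Y i) U = 0)
    (hZ : ∀ i, quad (Z i) + hyp (Z i) U = 1) :
    k = m ∧ ∀ i, quad (Y i) = quad (Z i) ∧ quad (Y i) ≠ 0 := by
  have hch : ∀ i, ∃ P Q T : (Fin k → F) × (Fin k → F),
      (P ∈ ({X i, Y i, Z i} : Set _) ∧ Q ∈ ({X i, Y i, Z i} : Set _) ∧
        T ∈ ({X i, Y i, Z i} : Set _)) ∧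
      hyp P P * hyp Q Q - hyp P Q * hyp P Q ≠ 0 ∧
      ∀ c d : F, T - (c • P + d • Q) = 0 → quad (Y i) = quad (Z i) ∧ quad (Y i) ≠ 0 := by
    intro i
    have hrel := fun {a b c : F} => quad_of_relation (a := a) (b := b) (c := c) h2
      (hXY i) (hXZ i) (hYZ i) (hX i) (hY i) (hZ i)
    by_cases hA : 4 * quad (X i) * quad (Y i) - 1 = 0
    · by_cases hB : 4 * quad (X i) * quad (Z i) - 1 = 0
      · refine ⟨Y i, Z i, X i, ⟨by simp, by simp, by simp⟩, ?_, ?_⟩
        · rw [hyp_self, hyp_self, hYZ]
          intro h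
          have h4 : 4 * quad (Y i) * quad (Z i) = 0 := by linear_combination h
          have : (4 * quad (X i)) * (4 * quad (Y i) * quad (Z i)) = 4 * quad (Z i) := by
            linear_combination (4 * quad (Z i)) * hA
          rw [h4, mul_zero] at this
          have : (1 : F) = 0 := by linear_combination (-quad (X i)) * this - hB
          exact one_ne_zero this
        · intro c d h
          refine hrel (a := 1) (b := -c) (c := -d) (by simp) ?_
          rw [← h, one_smul, neg_smul, neg_smul]
          abel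
      · refine ⟨X i, Z i, Y i, ⟨by simp, by simp, by simp⟩, ?_, ?_⟩
        · rw [hyp_self, hyp_self, hXZ]
          intro h
          exact hB (by linear_combination h)
        · intro c d h
          refine hrel (a := -c) (b := 1) (c := -d) (by simp) ?_
          rw [← h, one_smul, neg_smul, neg_smul]
          abel
    · refine ⟨X i, Y i, Z i, ⟨by simp, by simp, by simp⟩, ?_, ?_⟩
      · rw [hyp_self, hyp_self, hXY]
        intro h
        exact hA (by linear_combination h)
      · intro c d h
        refine hrel (a := -c) (b := -d) (c := 1) (by simp) ?_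
        rw [← h, one_smul, neg_smul, neg_smul]
        abel
  choose P Q T hmem hdet hfin using hch
  have hind := linearIndependent_pairs P Q hdet
    (fun i j hij => hcross i j hij _ (hmem i).1 _ (hmem j).1)
    (fun i j hij => hcross i j hij _ (hmem i).1 _ (hmem j).2.1)
    (fun i j hij => hcross i j hij _ (hmem i).2.1 _ (hmem j).2.1)
  have hcard : Fintype.card (Fin m ⊕ Fin m) ≤
      Module.finrank F ((Fin k → F) × (Fin k → F)) := hind.fintype_card_le_finrank
  have hfr : Module.finrank F ((Fin k → F) × (Fin k → F)) = k + k := by simp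
  rw [hfr, Fintype.card_sum, Fintype.card_fin] at hcard
  have hk : k = m := by omega
  refine ⟨hk, fun i => ?_⟩
  have hspan : Submodule.span F (Set.range (Sum.elim P Q)) = ⊤ := by
    apply hind.span_eq_top_of_card_eq_finrank'
    rw [hfr, Fintype.card_sum, Fintype.card_fin, hk]
  -- the projection of `T i`
  obtain ⟨c, d, hc, hd⟩ : ∃ c d : F, hyp (T i - (c • P i + d • Q i)) (P i) = 0 ∧
      hyp (T i - (c • P i + d • Q i)) (Q i) = 0 := by
    have hd := hdet i
    set δ := hyp (P i) (P i) * hyp (Q i) (Q i) - hyp (P i) (Q i) * hyp (P i) (Q i) with hδ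
    refine ⟨(hyp (T i) (P i) * hyp (Q i) (Q i) - hyp (T i) (Q i) * hyp (P i) (Q i)) / δ,
      (hyp (T i) (Q i) * hyp (P i) (P i) - hyp (T i) (P i) * hyp (P i) (Q i)) / δ, ?_, ?_⟩
    · rw [← hypL_apply, map_sub, map_add, map_smul, map_smul]
      simp only [hypL_apply, smul_eq_mul]
      rw [hyp_comm (Q i) (P i)]
      field_simp
      rw [hδ]
      ring
    · rw [← hypL_apply, map_sub, map_add, map_smul, map_smul]
      simp only [hypL_apply, smul_eq_mul]
      field_simp
      rw [hδ]
      ring
  refine hfin i c d (hyp_eq_zero fun v => ?_)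
  have hker : (⊤ : Submodule F ((Fin k → F) × (Fin k → F))) ≤
      LinearMap.ker (hypL (T i - (c • P i + d • Q i))) := by
    rw [← hspan, Submodule.span_le]
    rintro _ ⟨j | j, rfl⟩
    · simp only [Sum.elim_inl, SetLike.mem_coe, LinearMap.mem_ker, hypL_apply]
      rw [hyp_comm]
      by_cases hij : i = j
      · subst hij; exact hc
      · rw [← hypL_apply, map_sub, map_add, map_smul, map_smul]
        simp only [hypL_apply]
        rw [hcross i j hij _ (hmem i).2.2 _ (hmem j).1, hcross i j hij _ (hmem i).1 _ (hmem j).1,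
          hcross i j hij _ (hmem i).2.1 _ (hmem j).1]
        simp
    · simp only [Sum.elim_inr, SetLike.mem_coe, LinearMap.mem_ker, hypL_apply]
      rw [hyp_comm]
      by_cases hij : i = j
      · subst hij; exact hd
      · rw [← hypL_apply, map_sub, map_add, map_smul, map_smul]
        simp only [hypL_apply]
        rw [hcross i j hij _ (hmem i).2.2 _ (hmem j).2.1,
          hcross i j hij _ (hmem i).1 _ (hmem j).2.1,
          hcross i j hij _ (hmem i).2.1 _ (hmem j).2.1]
        simp
  exact LinearMap.mem_ker.1 (hker (Submodule.mem_top (x := v)))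

/-- The determinant argument. -/
lemma isSquare_of_orthogonal {m : ℕ} (h2 : (2 : F) ≠ 0)
    (Y Z : Fin m → (Fin m → F) × (Fin m → F))
    (hYZ : ∀ i, hyp (Y i) (Z i) = 0)
    (hcross : ∀ i j, i ≠ j → hyp (Y i) (Y j) = 0 ∧ hyp (Y i) (Z j) = 0 ∧ hyp (Z i) (Z j) = 0)
    (hq : ∀ i, quad (Y i) = quad (Z i) ∧ quad (Y i) ≠ 0) : IsSquare ((-1 : F) ^ m) := by
  classical
  let w : Fin m ⊕ Fin m → (Fin m → F) × (Fin m → F) := Sum.elim Y Z
  let V : Matrix (Fin m ⊕ Fin m) (Fin m ⊕ Fin m) F := Matrix.of fun r c =>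
    Sum.elim (fun l => (w r).1 l + (w r).2 l) (fun l => (w r).1 l - (w r).2 l) c
  let D : Matrix (Fin m ⊕ Fin m) (Fin m ⊕ Fin m) F :=
    Matrix.diagonal (Sum.elim (fun _ => 1) (fun _ => -1))
  have hprod : V * D * V.transpose =
      Matrix.diagonal (fun r => 4 * quad (w r)) := by
    ext r s
    rw [Matrix.mul_apply]
    have h1 : ∀ c, (V * D) r c * V.transpose c s = V r c * D c c * V s c := by
      intro c
      rw [Matrix.mul_diagonal, Matrix.transpose_apply]
      simp [D]
    rw [Finset.sum_congr rfl fun c _ => h1 c, Fintype.sum_sum_type]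
    have h3 : ∑ l, V r (Sum.inl l) * D (Sum.inl l) (Sum.inl l) * V s (Sum.inl l) +
        ∑ l, V r (Sum.inr l) * D (Sum.inr l) (Sum.inr l) * V s (Sum.inr l) =
        2 * hyp (w r) (w s) := by
      rw [← Finset.sum_add_distrib, hyp, Finset.mul_sum]
      refine Finset.sum_congr rfl fun l _ => ?_
      simp only [V, D, Matrix.of_apply, Sum.elim_inl, Sum.elim_inr, Matrix.diagonal_apply_eq]
      ring
    rw [h3]
    by_cases hrs : r = s
    · subst hrs
      rw [Matrix.diagonal_apply_eq, hyp_self]
      ring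
    · rw [Matrix.diagonal_apply_ne _ hrs]
      have : hyp (w r) (w s) = 0 := by
        rcases r with i | i <;> rcases s with j | j
        · exact (hcross i j (fun h => hrs (by rw [h]))).1
        · by_cases hij : i = j
          · subst hij; exact hYZ i
          · exact (hcross i j hij).2.1
        · by_cases hij : i = j
          · subst hij; rw [hyp_comm]; exact hYZ i
          · rw [hyp_comm]; exact (hcross j i (fun h => hij h.symm)).2.1
        · exact (hcross i j (fun h => hrs (by rw [h]))).2.2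
      rw [this, mul_zero]
  have hdet := congrArg Matrix.det hprod
  rw [Matrix.det_mul, Matrix.det_mul, Matrix.det_transpose, Matrix.det_diagonal,
    Matrix.det_diagonal, Fintype.prod_sum_type, Fintype.prod_sum_type] at hdet
  simp only [Sum.elim_inl, Sum.elim_inr, Finset.prod_const_one, one_mul, Finset.prod_const,
    Finset.card_univ, Fintype.card_fin, w] at hdet
  have h5 : ∏ i, 4 * quad (Z i) = ∏ i, 4 * quad (Y i) :=
    Finset.prod_congr rfl fun i _ => by rw [(hq i).1]
  rw [h5] at hdet
  have h6 : ∏ i, 4 * quad (Y i) ≠ 0 := by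
    refine Finset.prod_ne_zero_iff.2 fun i _ => mul_ne_zero ?_ (hq i).2
    have : (4 : F) = 2 * 2 := by norm_num
    rw [this]
    exact mul_ne_zero h2 h2
  have h7 : V.det ≠ 0 := by
    intro h
    rw [h, zero_mul, zero_mul] at hdet
    exact h6 (mul_self_eq_zero.1 hdet.symm)
  refine ⟨(∏ i, 4 * quad (Y i)) / V.det, ?_⟩
  field_simp
  linear_combination hdet

end linalg

/-! ### The polynomial -/

/-- The `r`-th variable (`r = 0, 1, 2`) of the `i`-th block. -/
def vr {m : ℕ} (i : Fin m) (r : Fin 3) : Fin (3 * m) := ⟨3 * i + r, by omega⟩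

lemma vr_inj {m : ℕ} {i j : Fin m} {r s : Fin 3} : vr i r = vr j s ↔ i = j ∧ r = s := by
  simp only [vr, Fin.ext_iff]
  omega

/-- The sum of `m` multiplexers `x y + (1 - x) z` in disjoint sets of variables. -/
noncomputable def mux (F : Type*) [Field F] (m : ℕ) : MvPolynomial (Fin (3 * m)) F :=
  ∑ i : Fin m, (X (vr i 0) * (X (vr i 1) - X (vr i 2)) + X (vr i 2))

lemma eval_mux {F : Type*} [Field F] {m : ℕ} (x : Fin (3 * m) → F) :
    eval x (mux F m) = ∑ i : Fin m, (x (vr i 0) * (x (vr i 1) - x (vr i 2)) + x (vr i 2)) := by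
  simp [mux]

lemma totalDegree_mux_le {F : Type*} [Field F] {m : ℕ} : (mux F m).totalDegree ≤ 2 := by
  unfold mux
  refine totalDegree_finsetSum_le fun i _ => ?_
  refine (totalDegree_add _ _).trans (max_le ?_ ?_)
  · refine (totalDegree_mul _ _).trans ?_
    have h1 : (X (vr i 0) : MvPolynomial (Fin (3 * m)) F).totalDegree ≤ 1 := by
      rw [totalDegree_X]
    have h2 : (X (vr i 1) - X (vr i 2) : MvPolynomial (Fin (3 * m)) F).totalDegree ≤ 1 := by
      refine (totalDegree_sub _ _).trans ?_
      rw [totalDegree_X, totalDegree_X, max_self]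
    omega
  · rw [totalDegree_X]
    omega

/-- The bilinear part. -/
def tab (F : Type*) [Field F] : Fin 3 → Fin 3 → F := ![![0, 1, -1], ![1, 0, 0], ![-1, 0, 0]]

/-- The linear part. -/
def lin (F : Type*) [Field F] : Fin 3 → F := ![0, 0, 1]

lemma mux_bilin {F : Type*} [Field F] {m : ℕ} (i j : Fin m) (r s : Fin 3) :
    eval (Pi.single (vr i r) 1 + Pi.single (vr j s) 1) (mux F m) -
      eval (Pi.single (vr i r) 1) (mux F m) - eval (Pi.single (vr j s) 1) (mux F m) +
      eval 0 (mux F m) = if i = j then tab F r s else 0 := by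
  classical
  have hb : ∀ x y : Fin (3 * m) → F, eval (x + y) (mux F m) - eval x (mux F m) -
      eval y (mux F m) + eval 0 (mux F m) = ∑ l : Fin m,
        (x (vr l 0) * (y (vr l 1) - y (vr l 2)) + y (vr l 0) * (x (vr l 1) - x (vr l 2))) := by
    intro x y
    simp only [eval_mux, ← Finset.sum_sub_distrib, ← Finset.sum_add_distrib, Pi.add_apply,
      Pi.zero_apply]
    exact Finset.sum_congr rfl fun l _ => by ring
  rw [hb]
  have hs : ∀ (l : Fin m) (t : Fin 3) (a : Fin m) (b : Fin 3),
      (Pi.single (vr a b) (1 : F) : Fin (3 * m) → F) (vr l t) = if a = l ∧ b = t then 1 else 0 := by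
    intro l t a b
    rw [Pi.single_apply]
    simp only [vr_inj]
    congr 1
    simp only [eq_iff_iff]
    exact ⟨fun h => ⟨h.1.symm, h.2.symm⟩, fun h => ⟨h.1.symm, h.2.symm⟩⟩
  simp only [hs]
  by_cases hij : i = j
  · subst hij
    rw [if_pos rfl, Finset.sum_eq_single i]
    · fin_cases r <;> fin_cases s <;> simp [tab]
    · intro l _ hl
      have : ¬ i = l := fun h => hl h.symm
      simp [this]
    · simp
  · rw [if_neg hij]
    refine Finset.sum_eq_zero fun l _ => ?_
    by_cases hl : i = l
    · subst hl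
      have : ¬ j = i := fun h => hij h.symm
      simp [this]
    · simp [hl]

lemma mux_lin {F : Type*} [Field F] {m : ℕ} (i : Fin m) (r : Fin 3) :
    eval (Pi.single (vr i r) 1) (mux F m) - eval 0 (mux F m) = lin F r := by
  classical
  have hs : ∀ (l : Fin m) (t : Fin 3) (a : Fin m) (b : Fin 3),
      (Pi.single (vr a b) (1 : F) : Fin (3 * m) → F) (vr l t) = if a = l ∧ b = t then 1 else 0 := by
    intro l t a b
    rw [Pi.single_apply]
    simp only [vr_inj]
    congr 1
    simp only [eq_iff_iff]
    exact ⟨fun h => ⟨h.1.symm, h.2.symm⟩, fun h => ⟨h.1.symm, h.2.symm⟩⟩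
  rw [eval_mux, eval_mux]
  simp only [hs, Pi.zero_apply]
  rw [Finset.sum_eq_single i, Finset.sum_eq_zero]
  · fin_cases r <;> simp [lin]
  · intro l _; simp
  · intro l _ hl
    have : ¬ i = l := fun h => hl h.symm
    simp [this]
  · simp

/-- A representation of `mux` with `k ≤ m` products forces `(-1) ^ m` to be a square. -/
lemma lower_bound {F : Type*} [Field F] (h2 : (2 : F) ≠ 0) {m k : ℕ} (hkm : k ≤ m) (c : F)
    (A B : Fin k → MvPolynomial (Fin (3 * m)) F)
    (hdeg : ∀ i, (A i).totalDegree ≤ 1 ∧ (B i).totalDegree ≤ 1)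
    (h : ∀ x : Fin (3 * m) → F, (∀ i, x i ∈ ({0, 1} : Set F)) →
      eval x (mux F m) = c + ∑ i, eval x (A i) * eval x (B i)) : IsSquare ((-1 : F) ^ m) := by
  classical
  let e : Fin m → Fin 3 → Fin (3 * m) → F := fun i r => Pi.single (vr i r) 1
  let u : Fin m → Fin 3 → (Fin k → F) × (Fin k → F) := fun i r =>
    (fun l => eval (e i r) (A l) - eval 0 (A l), fun l => eval (e i r) (B l) - eval 0 (B l))
  let U : (Fin k → F) × (Fin k → F) := (fun l => eval 0 (A l), fun l => eval 0 (B l))
  have he : ∀ i r, ∀ v, e i r v ∈ ({0, 1} : Set F) := by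
    intro i r v
    simp only [e, Pi.single_apply]
    split_ifs <;> simp
  have hee : ∀ i r j s, ¬ (i = j ∧ r = s) → ∀ v, (e i r + e j s) v ∈ ({0, 1} : Set F) := by
    intro i r j s hne v
    simp only [e, Pi.add_apply, Pi.single_apply]
    by_cases h1 : v = vr i r
    · have h2 : ¬ v = vr j s := fun h2 => hne (vr_inj.1 (h1.symm.trans h2))
      rw [if_pos h1, if_neg h2]
      simp
    · rw [if_neg h1, zero_add]
      split_ifs <;> simp
  have hz : ∀ v, (0 : Fin (3 * m) → F) v ∈ ({0, 1} : Set F) := fun v => by simp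
  have hhyp : ∀ i r j s, ¬ (i = j ∧ r = s) →
      hyp (u i r) (u j s) = if i = j then tab F r s else 0 := by
    intro i r j s hne
    rw [← mux_bilin i j r s, h _ (hee i r j s hne), h _ (he i r), h _ (he j s), h 0 hz]
    have hA : ∀ l, eval (e i r + e j s) (A l) = eval (e i r) (A l) + eval (e j s) (A l) -
        eval 0 (A l) := fun l => by
      have := eval_add_of_le_one (hdeg l).1 (e i r) (e j s)
      linear_combination this
    have hB : ∀ l, eval (e i r + e j s) (B l) = eval (e i r) (B l) + eval (e j s) (B l) -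
        eval 0 (B l) := fun l => by
      have := eval_add_of_le_one (hdeg l).2 (e i r) (e j s)
      linear_combination this
    simp only [hA, hB]
    have : ∑ l, (eval (e i r) (A l) + eval (e j s) (A l) - eval 0 (A l)) *
        (eval (e i r) (B l) + eval (e j s) (B l) - eval 0 (B l)) =
        ∑ l, eval (e i r) (A l) * eval (e i r) (B l) +
        ∑ l, eval (e j s) (A l) * eval (e j s) (B l) -
        ∑ l, eval 0 (A l) * eval 0 (B l) + hyp (u i r) (u j s) := by
      simp only [hyp, u, ← Finset.sum_sub_distrib, ← Finset.sum_add_distrib]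
      exact Finset.sum_congr rfl fun l _ => by ring
    rw [this]
    ring
  have hquad : ∀ i r, quad (u i r) + hyp (u i r) U = lin F r := by
    intro i r
    rw [← mux_lin i r, h _ (he i r), h 0 hz]
    have : ∑ l, eval (e i r) (A l) * eval (e i r) (B l) =
        ∑ l, eval 0 (A l) * eval 0 (B l) + (quad (u i r) + hyp (u i r) U) := by
      simp only [hyp, quad, u, U, ← Finset.sum_add_distrib]
      exact Finset.sum_congr rfl fun l _ => by ring
    rw [this]
    ring
  have hb := blocks h2 hkm (fun i => u i 0) (fun i => u i 1) (fun i => u i 2) U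
    (fun i => by rw [hhyp i 0 i 1 (by simp)]; simp [tab])
    (fun i => by rw [hhyp i 0 i 2 (by simp)]; simp [tab])
    (fun i => by rw [hhyp i 1 i 2 (by simp)]; simp [tab])
    (by
      intro i j hij a ha b hb
      obtain ⟨r, rfl⟩ : ∃ r, a = u i r := by
        rcases ha with rfl | rfl | rfl
        exacts [⟨0, rfl⟩, ⟨1, rfl⟩, ⟨2, rfl⟩]
      obtain ⟨s, rfl⟩ : ∃ s, b = u j s := by
        rcases hb with rfl | rfl | rfl
        exacts [⟨0, rfl⟩, ⟨1, rfl⟩, ⟨2, rfl⟩]
      rw [hhyp i r j s (fun h => hij h.1), if_neg hij])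
    (fun i => by rw [hquad]; simp [lin]) (fun i => by rw [hquad]; simp [lin])
    (fun i => by rw [hquad]; simp [lin])
  obtain ⟨rfl, hq⟩ := hb
  refine isSquare_of_orthogonal h2 (fun i => u i 1) (fun i => u i 2)
    (fun i => by rw [hhyp i 1 i 2 (by simp)]; simp [tab]) ?_ hq
  intro i j hij
  refine ⟨?_, ?_, ?_⟩ <;> rw [hhyp _ _ _ _ (fun h => hij h.1), if_neg hij]

lemma two_le_totalDegree_mux {F : Type*} [Field F] {m : ℕ} (hm : 1 ≤ m) :
    2 ≤ (mux F m).totalDegree := by
  by_contra hlt
  have h1 : (mux F m).totalDegree ≤ 1 := by omega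
  have h2 := mux_bilin (F := F) (⟨0, hm⟩ : Fin m) ⟨0, hm⟩ 0 1
  have h3 := eval_add_of_le_one h1 (Pi.single (vr (⟨0, hm⟩ : Fin m) 0) (1 : F))
    (Pi.single (vr (⟨0, hm⟩ : Fin m) 1) (1 : F))
  rw [if_pos rfl] at h2
  have h4 : tab F 0 1 = 1 := by simp [tab]
  rw [h4] at h2
  have : (1 : F) = 0 := by linear_combination -h2 + h3
  exact one_ne_zero this

/-- **Theorem.** Let `p` be a prime with `p ≡ 3 mod 4`. There are `n` and a polynomial
`P ∈ F_p[x_1, …, x_n]` of degree `2` which misses a value on `{0, 1} ^ n` and whose degree-1 rank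
relative to `{0, 1}`, up to constants, is equal to `p - 1`. -/
theorem result (p : ℕ) [Fact p.Prime] (hp : p % 4 = 3) :
    ∃ (n : ℕ) (P : MvPolynomial (Fin n) (ZMod p)), P.totalDegree = 2 ∧
      (∃ v : ZMod p, ∀ x : Fin n → ZMod p, (∀ i, x i ∈ ({0, 1} : Set (ZMod p))) →
        eval x P ≠ v) ∧
      rkRelBar 1 ({0, 1} : Set (ZMod p)) P = ((p - 1 : ℕ) : ℕ∞) := by
  classical
  have hp3 : 3 ≤ p := by
    have := (Fact.out : p.Prime).two_le
    omega
  have h2 : (2 : ZMod p) ≠ 0 := by
    intro h
    have h' : ((2 : ℕ) : ZMod p) = 0 := by exact_mod_cast h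
    rw [ZMod.natCast_eq_zero_iff] at h'
    have := Nat.le_of_dvd (by norm_num) h'
    omega
  obtain ⟨m, rfl⟩ : ∃ m, p = m + 2 := ⟨p - 2, by omega⟩
  have hm : 1 ≤ m := by omega
  have hodd : Odd m := by
    rw [Nat.odd_iff]; omega
  refine ⟨3 * m, mux (ZMod (m + 2)) m, le_antisymm totalDegree_mux_le (two_le_totalDegree_mux hm),
    ⟨-1, ?_⟩, le_antisymm ?_ ?_⟩
  · -- the value `-1` is missed
    intro x hx h
    have hval : ∀ i : Fin m, ∃ b : ℕ, b ≤ 1 ∧
        x (vr i 0) * (x (vr i 1) - x (vr i 2)) + x (vr i 2) = (b : ZMod (m + 2)) := by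
      intro i
      have hx' : ∀ v, x v = 0 ∨ x v = 1 := fun v => by simpa using hx v
      rcases hx' (vr i 0) with h0 | h0 <;> rcases hx' (vr i 1) with h1 | h1 <;>
        rcases hx' (vr i 2) with h2 | h2 <;> rw [h0, h1, h2]
      all_goals first
        | (refine ⟨0, by norm_num, ?_⟩; simp; done)
        | (refine ⟨1, by norm_num, ?_⟩; simp; done)
    choose b hb1 hb2 using hval
    rw [eval_mux, Finset.sum_congr rfl fun i _ => hb2 i, ← Nat.cast_sum] at h
    have h3 : ∑ i, b i ≤ m := by
      calc ∑ i, b i ≤ ∑ _i : Fin m, 1 := Finset.sum_le_sum fun i _ => hb1 i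
        _ = m := by simp
    have h4 : ((∑ i, b i + 1 : ℕ) : ZMod (m + 2)) = 0 := by
      push_cast
      push_cast at h
      rw [h]; ring
    rw [ZMod.natCast_eq_zero_iff] at h4
    have := Nat.le_of_dvd (by omega) h4
    omega
  · -- the upper bound
    unfold rkRelBar rkRel rk
    refine iInf_le_of_le 0 (iInf_le_of_le 0 (iInf_le_of_le ?_ (iInf_le_of_le (m + 1)
      (iInf_le_of_le ?_ ?_))))
    · simp
    · refine ⟨Fin.snoc (fun i : Fin m => X (vr i 0) * (X (vr i 1) - X (vr i 2)))
        (∑ i : Fin m, X (vr i 2)), ?_, ?_⟩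
      · have hdeg : (mux (ZMod (m + 2)) m - C 0 - 0).totalDegree = 2 := by
          rw [C_0, sub_zero, sub_zero]
          exact le_antisymm totalDegree_mux_le (two_le_totalDegree_mux hm)
        rw [hdeg]
        have hX1 : ∀ v : Fin (3 * m), (X v : MvPolynomial (Fin (3 * m)) (ZMod (m + 2))).totalDegree
            ≤ 1 := fun v => by rw [totalDegree_X]
        have hXX : ∀ v w : Fin (3 * m),
            (X v - X w : MvPolynomial (Fin (3 * m)) (ZMod (m + 2))).totalDegree ≤ 1 := fun v w => by
          refine (totalDegree_sub _ _).trans ?_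
          rw [totalDegree_X, totalDegree_X, max_self]
        have hS : (∑ i : Fin m, X (vr i 2) :
            MvPolynomial (Fin (3 * m)) (ZMod (m + 2))).totalDegree ≤ 1 :=
          totalDegree_finsetSum_le fun i _ => hX1 _
        intro i
        refine Fin.lastCases ?_ (fun i => ?_) i
        · rw [Fin.snoc_last]
          exact ⟨⟨[∑ i : Fin m, X (vr i 2)], by simpa using hS, by simp⟩, by omega⟩
        · rw [Fin.snoc_castSucc]
          refine ⟨⟨[X (vr i 0), X (vr i 1) - X (vr i 2)], ?_, by simp⟩, ?_⟩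
          · intro Q hQ
            simp only [List.mem_cons, List.not_mem_nil, or_false] at hQ
            rcases hQ with rfl | rfl
            · exact hX1 _
            · exact hXX _ _
          · have := totalDegree_mul (X (vr i 0) : MvPolynomial (Fin (3 * m)) (ZMod (m + 2)))
              (X (vr i 1) - X (vr i 2))
            have h1 := hX1 (vr i 0)
            have h2 := hXX (vr i 1) (vr i 2)
            omega
      · rw [Fin.sum_univ_castSucc]
        simp only [Fin.snoc_castSucc, Fin.snoc_last, C_0, sub_zero, mux, Finset.sum_add_distrib]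
    · have : m + 2 - 1 = m + 1 := by omega
      rw [this]
  · -- the lower bound
    by_contra hlt
    rw [not_le] at hlt
    obtain ⟨k, hk, c, A, B, hdeg, h⟩ := exists_products totalDegree_mux_le hlt
    have hsq := lower_bound h2 (by omega) c A B hdeg h
    rw [hodd.neg_one_pow] at hsq
    exact absurd hp (ZMod.exists_sq_eq_neg_one_iff.1 hsq)

end Pool.Agent.Results.MP_d05de0_co.Multiplexers
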